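import Mathlib

/-!
# MP_511665_al: a local loop lemma for odd cycles under absorption

Let `R` be a symmetric relation on a set `A` containing an odd cycle through `a`, and let `f` be an
idempotent operation on `A` compatible with `R` such that `a^{+R}` absorbs `{a}` with respect to
`f`.  We prove that `R` contains a loop.
-/

set_option autoImplicit false

namespace Pool.Agent.Results.MP_511665_al.LoopExists

universe u

/-- The right neighbourhood `a^{+R}`. -/
def nbr {A : Type u} (R : A → A → Prop) (a : A) : Set A := {b | R a b}

/-- `f` is idempotent. -/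
def IsIdem {A : Type u} {n : ℕ} (f : (Fin n → A) → A) : Prop := ∀ x : A, f (fun _ => x) = x

/-- `f` is compatible with `R`. -/
def Compat {A : Type u} {n : ℕ} (f : (Fin n → A) → A) (R : A → A → Prop) : Prop :=
  ∀ x y : Fin n → A, (∀ i, R (x i) (y i)) → R (f x) (f y)

/-- `B` absorbs `C` with respect to `f`: replacing one argument from `B` by an element of `C`
still gives a value in `B`. -/
def Absorbs {A : Type u} {n : ℕ} (f : (Fin n → A) → A) (B C : Set A) : Prop :=
  ∀ (j : Fin n) (b : Fin n → A), (∀ i, b i ∈ B) → ∀ c ∈ C, f (Function.update b j c) ∈ B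

/-! ### Words and evaluation of labelled trees -/

section words

variable {ι : Type}

/-- put the letter `i` in front of the word `w`. -/
def cons (i : ι) (w : ℕ → ι) : ℕ → ι := fun k => Nat.casesOn k i w

/-- delete the first letter. -/
def tl (w : ℕ → ι) : ℕ → ι := fun k => w (k + 1)

@[simp] lemma cons_zero (i : ι) (w : ℕ → ι) : cons i w 0 = i := rfl
@[simp] lemma cons_succ (i : ι) (w : ℕ → ι) (k : ℕ) : cons i w (k + 1) = w k := rfl
@[simp] lemma tl_cons (i : ι) (w : ℕ → ι) : tl (cons i w) = w := rfl
lemma tl_apply (w : ℕ → ι) (k : ℕ) : tl w k = w (k + 1) := rfl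

/-- put a finite word in front. -/
def app : List ι → (ℕ → ι) → (ℕ → ι)
  | [], w => w
  | i :: z, w => cons i (app z w)

/-- `g` depends on the first `M` letters only. -/
def Dep {B : Type*} (M : ℕ) (g : (ℕ → ι) → B) : Prop :=
  ∀ w w' : ℕ → ι, (∀ k < M, w k = w' k) → g w = g w'

end words

variable {A : Type u} {n : ℕ}

/-- value of the complete tree of depth `M` whose leaves are labelled by `g`. -/
def V (f : (Fin n → A) → A) (w0 : ℕ → Fin n) : ℕ → ((ℕ → Fin n) → A) → A
  | 0, g => g w0
  | M + 1, g => f (fun i => V f w0 M (fun w => g (cons i w)))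

variable {f : (Fin n → A) → A} {w0 : ℕ → Fin n}

lemma V_rel {S : A → A → Prop} (hS : Compat f S) (M : ℕ) :
    ∀ g h : (ℕ → Fin n) → A, (∀ w, S (g w) (h w)) → S (V f w0 M g) (V f w0 M h) := by
  induction M with
  | zero => intro g h H; exact H _
  | succ M ih =>
    intro g h H
    exact hS _ _ (fun i => ih _ _ (fun w => H _))

lemma V_pred {P : A → Prop} (hP : ∀ x : Fin n → A, (∀ i, P (x i)) → P (f x)) (M : ℕ) :
    ∀ g : (ℕ → Fin n) → A, (∀ w, P (g w)) → P (V f w0 M g) := by
  induction M with
  | zero => intro g H; exact H _
  | succ M ih =>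
    intro g H
    exact hP _ (fun i => ih _ (fun w => H _))

lemma V_const (hf : IsIdem f) (M : ℕ) (a : A) :
    ∀ g : (ℕ → Fin n) → A, (∀ w, g w = a) → V f w0 M g = a := by
  induction M with
  | zero => intro g H; exact H _
  | succ M ih =>
    intro g H
    have : (fun i => V f w0 M (fun w => g (cons i w))) = fun _ => a :=
      funext fun i => ih _ (fun w => H _)
    rw [V, this, hf]

lemma V_succ (hf : IsIdem f) (M : ℕ) :
    ∀ g : (ℕ → Fin n) → A, Dep M g → V f w0 (M + 1) g = V f w0 M g := by
  induction M with
  | zero =>
    intro g H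
    exact V_const hf 1 (g w0) g (fun w => H _ _ (fun k hk => absurd hk (Nat.not_lt_zero k)))
  | succ M ih =>
    intro g H
    rw [V, V]
    congr 1
    funext i
    apply ih
    intro w w' hw
    apply H
    intro k hk
    cases k with
    | zero => rfl
    | succ k => exact hw k (by omega)

lemma V_tl (hf : IsIdem f) (M : ℕ) (g : (ℕ → Fin n) → A) :
    V f w0 (M + 1) (fun w => g (tl w)) = V f w0 M g := by
  have h : (fun i => V f w0 M (fun w => g (tl (cons i w)))) = fun _ : Fin n => V f w0 M g := rfl
  rw [V, h, hf]

lemma V_node {S : A → A → Prop} (hS : Compat f S) (K M : ℕ) :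
    ∀ g h : (ℕ → Fin n) → A,
      (∀ z : List (Fin n), z.length = K →
        S (V f w0 M (fun w => g (app z w))) (V f w0 M (fun w => h (app z w)))) →
      S (V f w0 (M + K) g) (V f w0 (M + K) h) := by
  induction K with
  | zero => intro g h H; exact H [] rfl
  | succ K ih =>
    intro g h H
    rw [← Nat.add_assoc, V, V]
    refine hS _ _ (fun i => ih _ _ (fun z hz => ?_))
    exact H (i :: z) (by simp [hz])

/-! ### Labellings -/

/-- the adjacency relation of the graph consisting of the path `0, 1, ..., D` and a complete graph
on `{D, D+1, ...}`. -/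
def adj (D x y : ℕ) : Prop :=
  (x ≤ D ∧ y ≤ D ∧ (x + 1 = y ∨ y + 1 = x)) ∨ (D ≤ x ∧ D ≤ y ∧ x ≠ y)

/-- `L` is a labelling with delay `J`, run length `N`, memory `M` and labels at most `D + k`. -/
structure Lab (D N J M k : ℕ) (L : (ℕ → Fin n) → ℕ) : Prop where
  dep : Dep M L
  bd : ∀ w, L w ≤ D + k
  zero : ∀ (w : ℕ → Fin n) (i : Fin n), (∀ t < N, w (J + t) = i) → L w = 0
  prop : ∀ w : ℕ → Fin n, (∃ i, ∀ t < N + 1, w (J + t) = i) ∨ adj D (L w) (L (tl w))

/-- pick one of `D, D+1, D+2` different from `x` and `y`. -/
def pick (D x y : ℕ) : ℕ :=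
  if D ≠ x ∧ D ≠ y then D else if D + 1 ≠ x ∧ D + 1 ≠ y then D + 1 else D + 2

lemma pick_spec (D x y : ℕ) : D ≤ pick D x y ∧ pick D x y ≤ D + 2 ∧ pick D x y ≠ x ∧
    pick D x y ≠ y := by
  unfold pick
  split_ifs <;> omega

lemma reduce {D N J M k : ℕ} (hk : 2 ≤ k) {L : (ℕ → Fin n) → ℕ} (hL : Lab D N J M (k + 1) L) :
    ∃ L' : (ℕ → Fin n) → ℕ, Lab D N (J + 1) (M + 2) k L' := by
  refine ⟨fun w => if L (tl w) = D + k + 1 then pick D (L w) (L (tl (tl w))) else L (tl w), ?_⟩
  constructor
  · intro w w' hw
    have h0 : L w = L w' := hL.dep _ _ (fun t ht => hw t (by omega))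
    have h1 : L (tl w) = L (tl w') := hL.dep _ _ (fun t ht => hw (t + 1) (by omega))
    have h2 : L (tl (tl w)) = L (tl (tl w')) := hL.dep _ _ (fun t ht => hw (t + 2) (by omega))
    simp only [h0, h1, h2]
  · intro w
    have h1 := hL.bd (tl w)
    have h2 := pick_spec D (L w) (L (tl (tl w)))
    split_ifs <;> omega
  · intro w i hw
    have h1 : L (tl w) = 0 := hL.zero (tl w) i (fun t ht => by
      rw [tl_apply, ← hw t ht]; congr 1; omega)
    rw [h1, if_neg (by omega)]
  · intro w
    rcases hL.prop (tl w) with ⟨i, hi⟩ | h
    · left
      exact ⟨i, fun t ht => by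
        have := hi t ht
        rw [tl_apply] at this
        rw [← this]; congr 1; omega⟩
    · right
      have h2 := pick_spec D (L w) (L (tl (tl w)))
      have h3 := pick_spec D (L (tl w)) (L (tl (tl (tl w))))
      unfold adj at h ⊢
      split_ifs <;> omega

lemma reduce_all {D N : ℕ} (k : ℕ) : ∀ (J M : ℕ) (L : (ℕ → Fin n) → ℕ), Lab D N J M (k + 2) L →
    ∃ (J' M' : ℕ) (L' : (ℕ → Fin n) → ℕ), Lab D N J' M' 2 L' := by
  induction k with
  | zero => intro J M L hL; exact ⟨J, M, L, hL⟩
  | succ k ih =>
    intro J M L hL
    obtain ⟨L', hL'⟩ := reduce (k := k + 2) (by omega) (by simpa [Nat.add_right_comm] using hL)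
    exact ih _ _ L' hL'

/-- the letters `e, ..., e + N - 1` of `w` are equal. -/
def cst (N : ℕ) (w : ℕ → Fin n) (e : ℕ) : Prop := ∀ t < N, w (e + t) = w e

lemma cst_tl (N : ℕ) (w : ℕ → Fin n) (e : ℕ) : cst N (tl w) e ↔ cst N w (e + 1) := by
  unfold cst tl
  constructor
  · intro h t ht
    have := h t ht
    rw [show e + 1 + t = e + t + 1 by omega]
    exact this
  · intro h t ht
    have := h t ht
    rw [show e + t + 1 = e + 1 + t by omega]
    exact this

/-- two overlapping constant windows. -/
lemma cst_mid {N : ℕ} {w : ℕ → Fin n} {e e' : ℕ} (h : cst N w e) (h' : cst N w e')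
    (hlt : e' < e + N) {m : ℕ} (hm : e ≤ m) (hm' : m ≤ e') : cst N w m := by
  have key : ∀ s, e ≤ s → s < e' + N → w s = w e := by
    intro s hs hs'
    by_cases h1 : s < e + N
    · have := h (s - e) (by omega)
      rwa [show e + (s - e) = s by omega] at this
    · have h2 := h' (s - e') (by omega)
      rw [show e' + (s - e') = s by omega] at h2
      have h3 := h (e' - e) (by omega)
      rw [show e + (e' - e) = e' by omega] at h3
      rw [h2, h3]
  intro t ht
  rw [key (m + t) (by omega) (by omega), key m hm (by omega)]

/-- a constant window at distance `d ≤ D` from the position `D`. -/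
def near (D N : ℕ) (w : ℕ → Fin n) (d : ℕ) : Prop :=
  d ≤ D ∧ (cst N w (D - d) ∨ cst N w (D + d))

open Classical in
/-- the initial labelling. -/
noncomputable def L0 (D N : ℕ) (enc : (Fin N → Fin n) → ℕ) (w : ℕ → Fin n) : ℕ :=
  if h : ∃ d, near D N w d then Nat.find h else D + 1 + enc (fun t => w t)

open Classical in
lemma L0_near {D N : ℕ} {enc : (Fin N → Fin n) → ℕ} {w : ℕ → Fin n} (h : ∃ d, near D N w d) :
    near D N w (L0 D N enc w) ∧ ∀ d < L0 D N enc w, ¬ near D N w d := by
  have he : L0 D N enc w = Nat.find h := by unfold L0; rw [dif_pos h]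
  rw [he]
  exact ⟨Nat.find_spec h, fun d hd => Nat.find_min h hd⟩

lemma L0_far {D N : ℕ} {enc : (Fin N → Fin n) → ℕ} {w : ℕ → Fin n} (h : ¬ ∃ d, near D N w d) :
    L0 D N enc w = D + 1 + enc (fun t => w t) := by
  unfold L0; rw [dif_neg h]

lemma L0_lab (D N K : ℕ) (hN : N = 2 * D + 2) (enc : (Fin N → Fin n) → ℕ)
    (henc : Function.Injective enc) (hK : ∀ x, enc x < K) :
    Lab D N D (4 * D + 4) K (L0 D N enc) := by
  constructor
  · intro w w' hw
    have hc : ∀ e ≤ 2 * D, (cst N w e ↔ cst N w' e) := by
      intro e he
      unfold cst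
      constructor
      · intro h t ht
        rw [← hw (e + t) (by omega), ← hw e (by omega)]; exact h t ht
      · intro h t ht
        rw [hw (e + t) (by omega), hw e (by omega)]; exact h t ht
    have hp : ∀ d, near D N w d ↔ near D N w' d := by
      intro d
      unfold near
      by_cases hd : d ≤ D
      · rw [hc (D - d) (by omega), hc (D + d) (by omega)]
      · simp [hd]
    have he : (fun t : Fin N => w t) = (fun t : Fin N => w' t) := by
      funext t
      exact hw t (by have := t.2; omega)
    by_cases h : ∃ d, near D N w d
    · have h' : ∃ d, near D N w' d := by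
        obtain ⟨d, hd⟩ := h
        exact ⟨d, (hp d).1 hd⟩
      obtain ⟨h1, h2⟩ := L0_near (enc := enc) h
      obtain ⟨h1', h2'⟩ := L0_near (enc := enc) h'
      rcases lt_trichotomy (L0 D N enc w) (L0 D N enc w') with hlt | heq | hlt
      · exact absurd ((hp _).1 h1) (h2' _ hlt)
      · exact heq
      · exact absurd ((hp _).2 h1') (h2 _ hlt)
    · have h' : ¬ ∃ d, near D N w' d := by
        rintro ⟨d, hd⟩
        exact h ⟨d, (hp d).2 hd⟩
      rw [L0_far h, L0_far h', he]
  · intro w
    by_cases h : ∃ d, near D N w d
    · have := (L0_near (enc := enc) h).1.1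
      omega
    · rw [L0_far h]
      have := hK (fun t => w t)
      omega
  · intro w i hw
    have h0 : near D N w 0 := by
      refine ⟨Nat.zero_le _, Or.inl ?_⟩
      intro t ht
      have h1 := hw 0 (by omega)
      rw [Nat.add_zero] at h1
      rw [Nat.sub_zero, hw t ht, h1]
    have h2 := (L0_near (enc := enc) ⟨0, h0⟩).2
    by_contra hne
    exact h2 0 (by omega) h0
  · intro w
    -- describe the two labels
    have hspec : ∀ v : ℕ → Fin n, (L0 D N enc v ≤ D ∧
        (cst N v (D - L0 D N enc v) ∨ cst N v (D + L0 D N enc v)) ∧
        ∀ d < L0 D N enc v, ¬ cst N v (D - d) ∧ ¬ cst N v (D + d)) ∨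
        (L0 D N enc v = D + 1 + enc (fun t => v t) ∧
        ∀ d ≤ D, ¬ cst N v (D - d) ∧ ¬ cst N v (D + d)) := by
      intro v
      by_cases h : ∃ d, near D N v d
      · left
        obtain ⟨h1, h2⟩ := L0_near (enc := enc) h
        refine ⟨h1.1, h1.2, ?_⟩
        intro d hd
        have h3 := h2 d hd
        have h4 := h1.1
        constructor
        · intro hc; exact h3 ⟨by omega, Or.inl hc⟩
        · intro hc; exact h3 ⟨by omega, Or.inr hc⟩
      · right
        refine ⟨L0_far h, ?_⟩
        intro d hd
        constructor
        · intro hc; exact h ⟨d, hd, Or.inl hc⟩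
        · intro hc; exact h ⟨d, hd, Or.inr hc⟩
    have h1 := hspec w
    have h2 := hspec (tl w)
    set x := L0 D N enc w with hx
    set y := L0 D N enc (tl w) with hy
    simp only [cst_tl] at h2
    by_cases hex : ∃ i, ∀ t < N + 1, w (D + t) = i
    · exact Or.inl hex
    right
    have hnot : ¬ (cst N w D ∧ cst N w (D + 1)) := by
      rintro ⟨ha, hb⟩
      apply hex
      refine ⟨w D, fun t ht => ?_⟩
      by_cases htN : t < N
      · exact ha t htN
      · have h3 := hb (t - 1) (by omega)
        rw [show D + 1 + (t - 1) = D + t by omega] at h3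
        have h4 := ha 1 (by omega)
        rw [h3, h4]
    rcases h1 with ⟨hxD, hxc, hxm⟩ | ⟨hxe, hxm⟩ <;> rcases h2 with ⟨hyD, hyc, hym⟩ | ⟨hye, hym⟩
    · -- both are near
      left
      refine ⟨hxD, hyD, ?_⟩
      have hle : y ≤ x + 1 := by
        by_contra hcon
        rcases hxc with hc | hc
        · apply (hym (x + 1) (by omega)).1
          rwa [show D - (x + 1) + 1 = D - x by omega]
        · by_cases hx0 : x = 0
          · rw [hx0] at hc
            apply (hym 1 (by omega)).1
            rwa [show D - 1 + 1 = D + 0 by omega]
          · apply (hym (x - 1) (by omega)).2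
            rwa [show D + (x - 1) + 1 = D + x by omega]
      have hge : x ≤ y + 1 := by
        by_contra hcon
        rcases hyc with hc | hc
        · by_cases hy0 : y = 0
          · rw [hy0] at hc
            apply (hxm 1 (by omega)).2
            rwa [show D - 0 + 1 = D + 1 by omega] at hc
          · apply (hxm (y - 1) (by omega)).1
            rwa [show D - y + 1 = D - (y - 1) by omega] at hc
        · apply (hxm (y + 1) (by omega)).2
          rwa [show D + y + 1 = D + (y + 1) by omega] at hc
      have hne : x ≠ y := by
        intro hxy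
        rw [← hxy] at hyc hym
        by_cases hx0 : x = 0
        · rw [hx0] at hxc hyc
          apply hnot
          constructor
          · rcases hxc with hc | hc
            · simpa using hc
            · simpa using hc
          · rcases hyc with hc | hc
            · simpa using hc
            · simpa using hc
        · -- `D + 1 - x` is not a constant window, nor is `D + x`
          have hA : cst N w (D + x + 1) := by
            rcases hyc with hc | hc
            · exfalso
              apply (hxm (x - 1) (by omega)).1
              rwa [show D - (x - 1) = D - x + 1 by omega]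
            · exact hc
          have hB : cst N w (D - x) := by
            rcases hxc with hc | hc
            · exact hc
            · exfalso
              apply (hym (x - 1) (by omega)).2
              rwa [show D + (x - 1) + 1 = D + x by omega]
          have hC : cst N w D := cst_mid hB hA (by omega) (by omega) (by omega)
          exact (hxm 0 (by omega)).1 (by simpa using hC)
      omega
    · -- `w` is near, `tl w` is not
      right
      have hxD' : x = D := by
        by_contra hcon
        rcases hxc with hc | hc
        · apply (hym (x + 1) (by omega)).1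
          rwa [show D - (x + 1) + 1 = D - x by omega]
        · by_cases hx0 : x = 0
          · rw [hx0] at hc
            apply (hym 1 (by omega)).1
            rwa [show D - 1 + 1 = D + 0 by omega]
          · apply (hym (x - 1) (by omega)).2
            rwa [show D + (x - 1) + 1 = D + x by omega]
      omega
    · right
      have hyD' : y = D := by
        by_contra hcon
        rcases hyc with hc | hc
        · by_cases hy0 : y = 0
          · rw [hy0] at hc
            apply (hxm 1 (by omega)).2
            rwa [show D - 0 + 1 = D + 1 by omega] at hc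
          · apply (hxm (y - 1) (by omega)).1
            rwa [show D - y + 1 = D - (y - 1) by omega] at hc
        · apply (hxm (y + 1) (by omega)).2
          rwa [show D + y + 1 = D + (y + 1) by omega] at hc
      omega
    · right
      refine ⟨by omega, by omega, ?_⟩
      intro hxy
      have he : enc (fun t => w t) = enc (fun t => tl w t) := by omega
      have he2 := henc he
      apply (hxm D le_rfl).1
      rw [Nat.sub_self]
      have hall : ∀ t < N, w t = w 0 := by
        intro t
        induction t with
        | zero => intro _; rfl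
        | succ t ih =>
          intro ht
          have h3 := congrFun he2 ⟨t, by omega⟩
          simp only [tl_apply] at h3
          rw [← h3]
          exact ih (by omega)
      intro t ht
      rw [Nat.zero_add]
      exact hall t ht

/-- the labellings that we need. -/
lemma exists_lab (n D : ℕ) : ∃ (J M : ℕ) (L : (ℕ → Fin n) → ℕ), Lab D (2 * D + 2) J M 2 L := by
  classical
  let e := Fintype.equivFin (Fin (2 * D + 2) → Fin n)
  have h := L0_lab (n := n) D _ (Fintype.card (Fin (2 * D + 2) → Fin n) + 2) rfl
    (fun x => (e x : ℕ)) (fun x y hxy => e.injective (Fin.ext hxy))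
    (fun x => by have := (e x).2; omega)
  exact reduce_all _ _ _ _ h

/-! ### The lemma for a triangle at finite distance from `a` -/

theorem lolli {S : A → A → Prop} (hn : 0 < n) (hf : IsIdem f) (hsym : ∀ x y, S x y → S y x)
    (hS : Compat f S) (a : A) (habs : Absorbs f (nbr S a) {a}) (D : ℕ) (v : ℕ → A) (hv0 : v 0 = a)
    (hv : ∀ d < D, S (v d) (v (d + 1))) (q r : A) (hpq : S (v D) q) (hpr : S (v D) r)
    (hqr : S q r) (P : A → Prop) (hP : ∀ x : Fin n → A, (∀ i, P (x i)) → P (f x))
    (hPv : ∀ d ≤ D, P (v d)) (hPq : P q) (hPr : P r) : ∃ x, P x ∧ S x x := by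
  classical
  obtain ⟨J, M, L, hL⟩ := exists_lab n D
  set N := 2 * D + 2 with hN
  let φ : ℕ → A := fun t => if t ≤ D then v t else if t = D + 1 then q else r
  have hφ : ∀ x y, x ≤ D + 2 → y ≤ D + 2 → adj D x y → S (φ x) (φ y) := by
    have h1 : ∀ x y, x ≤ D + 2 → y ≤ D + 2 → x < y → adj D x y → S (φ x) (φ y) := by
      intro x y hx hy hxy h
      unfold adj at h
      by_cases hyD : y ≤ D
      · have hxy' : y = x + 1 := by omega
        subst hxy'
        have e1 : φ x = v x := by simp only [φ]; rw [if_pos (by omega)]
        have e2 : φ (x + 1) = v (x + 1) := by simp only [φ]; rw [if_pos (by omega)]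
        rw [e1, e2]
        exact hv x (by omega)
      · by_cases hxD : x = D
        · have e1 : φ x = v D := by simp only [φ]; rw [if_pos (by omega), hxD]
          rw [e1]
          by_cases hy1 : y = D + 1
          · have e2 : φ y = q := by simp only [φ]; rw [if_neg hyD, if_pos hy1]
            rw [e2]; exact hpq
          · have e2 : φ y = r := by simp only [φ]; rw [if_neg hyD, if_neg hy1]
            rw [e2]; exact hpr
        · have e1 : φ x = q := by
            simp only [φ]; rw [if_neg (by omega), if_pos (by omega)]
          have e2 : φ y = r := by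
            simp only [φ]; rw [if_neg (by omega), if_neg (by omega)]
          rw [e1, e2]; exact hqr
    intro x y hx hy h
    rcases lt_trichotomy x y with hxy | hxy | hxy
    · exact h1 x y hx hy hxy h
    · unfold adj at h; omega
    · refine hsym _ _ (h1 y x hy hx hxy ?_)
      unfold adj at h ⊢; omega
  let G : (ℕ → Fin n) → A := fun w => φ (L w)
  have hG0 : ∀ w, L w = 0 → G w = a := by
    intro w hw
    simp only [G, φ]
    rw [hw, if_pos (Nat.zero_le _), hv0]
  let w0 : ℕ → Fin n := fun _ => ⟨0, hn⟩
  -- a common memory
  obtain ⟨M', hM', hMJ⟩ : ∃ M', M ≤ M' ∧ J + N ≤ M' := ⟨M + (J + N), by omega, by omega⟩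
  have hdep : Dep M' G := by
    intro w w' hw
    simp only [G]
    rw [hL.dep w w' (fun t ht => hw t (by omega))]
  refine ⟨V f w0 M' G, ?_, ?_⟩
  · apply V_pred hP
    intro w
    simp only [G, φ]
    split_ifs with h1 h2
    · exact hPv _ h1
    · exact hPq
    · exact hPr
  · have e1 : V f w0 (M' + 1) G = V f w0 M' G := V_succ hf M' G hdep
    have e2 : V f w0 (M' + 1) (fun w => G (tl w)) = V f w0 M' G := V_tl hf M' G
    have key : S (V f w0 (M' + 1) G) (V f w0 (M' + 1) (fun w => G (tl w))) := by
      obtain ⟨T, hT⟩ : ∃ T, M' + 1 = (T + 1) + (J + N) := ⟨M' - (J + N), by omega⟩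
      rw [hT]
      apply V_node hS
      intro z hz
      have happ : ∀ (z : List (Fin n)) (w : ℕ → Fin n) (k : ℕ) (hk : k < z.length),
          app z w k = z[k] := by
        intro z
        induction z with
        | nil => intro w k hk; simp at hk
        | cons i z ih =>
          intro w k hk
          cases k with
          | zero => rfl
          | succ k => simpa [app] using ih w k (by simpa using hk)
      have happ2 : ∀ (z : List (Fin n)) (w : ℕ → Fin n) (k : ℕ),
          app z w (z.length + k) = w k := by
        intro z
        induction z with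
        | nil => intro w k; simp [app]
        | cons i z ih =>
          intro w k
          have : (i :: z).length + k = (z.length + k) + 1 := by simp; omega
          rw [this]
          exact ih w k
      by_cases hz2 : ∃ i, ∀ t (ht : t < N), z[J + t]'(by omega) = i
      · obtain ⟨i, hi⟩ := hz2
        have hzero : ∀ w, L (app z w) = 0 := by
          intro w
          apply hL.zero _ i
          intro t ht
          rw [happ z w (J + t) (by omega)]
          exact hi t ht
        have hl : V f w0 (T + 1) (fun w => G (app z w)) = a :=
          V_const hf _ _ _ (fun w => hG0 _ (hzero w))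
        rw [hl]
        -- the children of the node
        have hchild_i : V f w0 T (fun w => G (tl (app z (cons i w)))) = a := by
          apply V_const hf
          intro w
          apply hG0
          apply hL.zero _ i
          intro t ht
          rw [tl_apply]
          by_cases h : J + t + 1 < z.length
          · rw [happ _ _ _ h]
            have := hi (t + 1) (by omega)
            simpa [Nat.add_assoc] using this
          · have : J + t + 1 = z.length + 0 := by omega
            rw [this, happ2]
            rfl
        have hchild_j : ∀ j, j ≠ i → S a (V f w0 T (fun w => G (tl (app z (cons j w))))) := by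
          intro j hj
          have hca : V f w0 T (fun _ : ℕ → Fin n => a) = a := V_const hf _ _ _ (fun _ => rfl)
          have : S (V f w0 T (fun _ : ℕ → Fin n => a))
              (V f w0 T (fun w => G (tl (app z (cons j w))))) := by
            apply V_rel hS
            intro w
            rcases hL.prop (app z (cons j w)) with ⟨i', hi'⟩ | h
            · exfalso
              have h1 := hi' 0 (by omega)
              rw [Nat.add_zero, happ _ _ _ (by omega)] at h1
              have h2 := hi 0 (by omega)
              simp only [Nat.add_zero] at h2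
              have h3 := hi' N (by omega)
              have h4 : J + N = z.length + 0 := by omega
              rw [h4, happ2, cons_zero] at h3
              exact hj (by rw [h3, ← h1, h2])
            · have h1 := hφ _ _ (hL.bd _) (hL.bd _) h
              have h2 : φ (L (app z (cons j w))) = a := hG0 _ (hzero _)
              rw [h2] at h1
              exact h1
          rwa [hca] at this
        change S a (f (fun j => V f w0 T (fun w => G (tl (app z (cons j w))))))
        -- a neighbour of `a`
        by_cases hall : ∃ j, j ≠ i
        · obtain ⟨j0, hj0⟩ := hall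
          have := habs i (Function.update
            (fun j => V f w0 T (fun w => G (tl (app z (cons j w))))) i
            (V f w0 T (fun w => G (tl (app z (cons j0 w)))))) (by
              intro j
              by_cases hji : j = i
              · subst hji
                rw [Function.update_self]
                exact hchild_j j0 hj0
              · rw [Function.update_of_ne hji]
                exact hchild_j j hji) a rfl
          have heq : Function.update (Function.update
              (fun j => V f w0 T (fun w => G (tl (app z (cons j w))))) i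
              (V f w0 T (fun w => G (tl (app z (cons j0 w)))))) i a =
              (fun j => V f w0 T (fun w => G (tl (app z (cons j w))))) := by
            funext j
            by_cases hji : j = i
            · subst hji
              rw [Function.update_self, hchild_i]
            · rw [Function.update_of_ne hji, Function.update_of_ne hji]
          rw [heq] at this
          exact this
        · push Not at hall
          -- only one coordinate: use a neighbour of `a`
          obtain ⟨b, hb⟩ : ∃ b, S a b := by
            by_cases hD : D = 0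
            · refine ⟨q, ?_⟩
              rw [← hv0]; simpa [hD] using hpq
            · exact ⟨v 1, by rw [← hv0]; exact hv 0 (by omega)⟩
          have := habs i (fun _ => b) (fun _ => hb) a rfl
          have heq : Function.update (fun _ => b) i a =
              (fun j => V f w0 T (fun w => G (tl (app z (cons j w))))) := by
            funext j
            have hji := hall j
            subst hji
            rw [Function.update_self, hchild_i]
          rw [heq] at this
          exact this
      · apply V_rel hS
        intro w
        rcases hL.prop (app z w) with ⟨i, hi⟩ | h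
        · exfalso
          apply hz2
          refine ⟨i, fun t ht => ?_⟩
          rw [← happ z w (J + t) (by omega)]
          exact hi t (by omega)
        · exact hφ _ _ (hL.bd _) (hL.bd _) h
    rwa [e1, e2] at key

/-! ### Walks -/

/-- there is an `R`-walk of length `k` from `x` to `y`. -/
def Wlk (R : A → A → Prop) (k : ℕ) (x y : A) : Prop :=
  ∃ g : ℕ → A, g 0 = x ∧ g k = y ∧ ∀ t < k, R (g t) (g (t + 1))

lemma Wlk.symm {R : A → A → Prop} (hR : ∀ x y, R x y → R y x) {k : ℕ} {x y : A}
    (h : Wlk R k x y) : Wlk R k y x := by
  obtain ⟨g, h0, hk, hg⟩ := h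
  refine ⟨fun t => g (k - t), by simpa using hk, by simpa using h0, fun t ht => ?_⟩
  apply hR
  have := hg (k - (t + 1)) (by omega)
  rwa [show k - (t + 1) + 1 = k - t by omega] at this

lemma Wlk.trans {R : A → A → Prop} {k m : ℕ} {x y z : A} (h : Wlk R k x y) (h' : Wlk R m y z) :
    Wlk R (k + m) x z := by
  obtain ⟨g, h0, hk, hg⟩ := h
  obtain ⟨g', h0', hk', hg'⟩ := h'
  refine ⟨fun t => if t ≤ k then g t else g' (t - k), by simpa using h0, ?_, fun t ht => ?_⟩
  · by_cases hm : m = 0
    · subst hm
      simp only [Nat.add_zero, le_refl, if_true]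
      rw [hk, ← h0', hk']
    · simp only
      rw [if_neg (by omega), show k + m - k = m by omega, hk']
  · simp only
    by_cases h1 : t + 1 ≤ k
    · rw [if_pos (by omega), if_pos h1]
      exact hg t (by omega)
    · by_cases h2 : t ≤ k
      · have h3 : t = k := by omega
        subst h3
        rw [if_pos le_rfl, if_neg (by omega), hk, ← h0', show t + 1 - t = 0 + 1 by omega]
        exact hg' 0 (by omega)
      · rw [if_neg h2, if_neg h1, show t + 1 - k = (t - k) + 1 by omega]
        exact hg' (t - k) (by omega)

lemma wlk_one {R : A → A → Prop} {x y : A} (h : R x y) : Wlk R 1 x y :=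
  ⟨fun t => if t = 0 then x else y, rfl, rfl, fun t ht => by
    have : t = 0 := by omega
    subst this
    exact h⟩

lemma of_wlk_one {R : A → A → Prop} {x y : A} (h : Wlk R 1 x y) : R x y := by
  obtain ⟨g, h0, h1, hg⟩ := h
  have := hg 0 (by omega)
  rwa [h0, h1] at this

lemma wlk_zero {R : A → A → Prop} (x : A) : Wlk R 0 x x :=
  ⟨fun _ => x, rfl, rfl, fun t ht => absurd ht (Nat.not_lt_zero t)⟩

lemma wlk_even {R : A → A → Prop} (hR : ∀ x y, R x y → R y x) {x y : A} (h : R x y) (j : ℕ) :
    Wlk R (2 * j) x x := by
  induction j with
  | zero => exact wlk_zero x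
  | succ j ih =>
    have := (ih.trans (wlk_one h)).trans (wlk_one (hR _ _ h))
    exact this

lemma wlk_odd {R : A → A → Prop} (hR : ∀ x y, R x y → R y x) {x y : A} (h : R x y) (j : ℕ) :
    Wlk R (2 * j + 1) x y := (wlk_even hR h j).trans (wlk_one h)

lemma wlk_compat {R : A → A → Prop} (hR : Compat f R) (k : ℕ) : Compat f (Wlk R k) := by
  intro x y h
  choose g h0 hk hg using h
  refine ⟨fun t => f (fun i => g i t), ?_, ?_, fun t ht => hR _ _ (fun i => hg i t ht)⟩
  · simp only [h0]
  · simp only [hk]

lemma wlk_absorbs {R : A → A → Prop} (hsym : ∀ x y, R x y → R y x)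
    (hR : Compat f R) {a : A} (habs : Absorbs f (nbr R a) {a}) (k : ℕ) :
    Absorbs f (nbr (Wlk R (2 * k + 1)) a) {a} := by
  classical
  intro j b hb c hc
  have hca : c = a := hc
  subst hca
  have hb' : ∀ i, Wlk R (2 * k + 1) c (b i) := hb
  choose g h0 hk hg using hb'
  -- a neighbour of `c`
  have hnb : R c (g j 1) := by
    have := hg j 0 (by omega)
    rwa [h0] at this
  obtain ⟨u, hu0, huk, hu⟩ := wlk_even hsym hnb k
  refine ⟨fun t => if t = 0 then c else
    f (fun i => if i = j then u (t - 1) else g i t), rfl, ?_, fun t ht => ?_⟩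
  · simp only
    rw [if_neg (by omega)]
    congr 1
    funext i
    by_cases hij : i = j
    · subst hij
      rw [if_pos rfl, Function.update_self]
      exact huk
    · rw [if_neg hij, Function.update_of_ne hij, hk]
  · simp only
    by_cases ht0 : t = 0
    · subst ht0
      rw [if_pos rfl, if_neg (by omega)]
      have h1 := habs j (fun i => g i 1) (fun i => by
        have := hg i 0 (by omega)
        rw [h0] at this
        exact this) c rfl
      have h2 : Function.update (fun i => g i 1) j c =
          (fun i => if i = j then u (0 + 1 - 1) else g i (0 + 1)) := by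
        funext i
        by_cases hij : i = j
        · subst hij
          rw [Function.update_self, if_pos rfl]
          exact hu0.symm
        · rw [Function.update_of_ne hij, if_neg hij]
      rw [h2] at h1
      exact h1
    · rw [if_neg ht0, if_neg (by omega)]
      apply hR
      intro i
      by_cases hij : i = j
      · rw [if_pos hij, if_pos hij]
        have := hu (t - 1) (by omega)
        rwa [show t - 1 + 1 = t + 1 - 1 by omega] at this
      · rw [if_neg hij, if_neg hij]
        exact hg i t ht

/-- **The local loop lemma for odd cycles.** Let `R` be a symmetric relation on a set `A`,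
`(c 0, ..., c (l - 1))` a closed walk of odd length `l` in `R` (in particular, an odd cycle), and
`f` an idempotent operation of arity `n` on `A` compatible with `R` such that `(c 0)^{+R}` absorbs
`{c 0}` with respect to `f`. Then `R` contains a loop. -/
theorem result (A : Type u) (R : A → A → Prop) (hsym : ∀ x y, R x y → R y x)
    (l : ℕ) (hl : Odd l) (c : ℕ → A) (hc : ∀ i, i + 1 < l → R (c i) (c (i + 1)))
    (hlast : R (c (l - 1)) (c 0)) (n : ℕ) (f : (Fin n → A) → A) (hf : IsIdem f)
    (hR : Compat f R) (habs : Absorbs f (nbr R (c 0)) {c 0}) : ∃ x, R x x := by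
  classical
  rcases Nat.eq_zero_or_pos n with hn | hn
  · subst hn
    have h1 : c (l - 1) = c 0 := by
      rw [← hf (c (l - 1)), ← hf (c 0)]
      congr 1
      funext i
      exact Fin.elim0 i
    rw [h1] at hlast
    exact ⟨_, hlast⟩
  set a := c 0 with ha
  have hcl : Wlk R l a a := by
    have hl0 : 0 < l := hl.pos
    refine ⟨fun t => if t = l then a else c t, ?_, by simp, fun t ht => ?_⟩
    · simp only; rw [if_neg (by omega)]
    · simp only
      rw [if_neg (by omega)]
      by_cases h1 : t + 1 = l
      · rw [if_pos h1, show t = l - 1 by omega]; exact hlast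
      · rw [if_neg h1]; exact hc t (by omega)
  have hnb : R a (c (l - 1)) := hsym _ _ hlast
  let P : A → Prop := fun x => ∃ k0, ∀ k ≥ k0, Wlk R k a x
  have hPa : P a := by
    refine ⟨l, fun k hk => ?_⟩
    rcases Nat.even_or_odd k with ⟨j, hj⟩ | hk2
    · have := wlk_even hsym hnb j
      rwa [show 2 * j = k by omega] at this
    · obtain ⟨i, hi⟩ := hl
      obtain ⟨j, hj⟩ := hk2
      have := hcl.trans (wlk_even hsym hnb (j - i))
      rwa [show l + 2 * (j - i) = k by omega] at this
  have hPstep : ∀ x y, P x → R x y → P y := by
    rintro x y ⟨k0, h0⟩ hxy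
    refine ⟨k0 + 1, fun k hk => ?_⟩
    have := (h0 (k - 1) (by omega)).trans (wlk_one hxy)
    rwa [show k - 1 + 1 = k by omega] at this
  have hPf : ∀ x : Fin n → A, (∀ i, P (x i)) → P (f x) := by
    intro x hx
    choose k0 h0 using hx
    refine ⟨Finset.univ.sup k0, fun k hk => ?_⟩
    have := wlk_compat hR k (fun _ => a) x (fun i => h0 i k
      (le_trans (Finset.le_sup (f := k0) (Finset.mem_univ i)) hk))
    rwa [hf a] at this
  have hex : ∃ m, Odd m ∧ ∃ x, P x ∧ Wlk R m x x := ⟨l, hl, a, hPa, hcl⟩
  obtain ⟨hmodd, x, hPx, hx⟩ := Nat.find_spec hex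
  have hmin := fun m => Nat.find_min (m := m) hex
  set m := Nat.find hex with hm
  obtain ⟨j, hj⟩ := hmodd
  rcases Nat.eq_zero_or_pos j with hj0 | hjpos
  · subst hj0
    have hm1 : m = 1 := by omega
    rw [hm1] at hx
    exact ⟨x, of_wlk_one hx⟩
  · exfalso
    obtain ⟨k, hk⟩ : ∃ k, j = k + 1 := ⟨j - 1, by omega⟩
    obtain ⟨g, hg0, hgm, hg⟩ := hx
    obtain ⟨k0, hk0⟩ := hPx
    obtain ⟨v, hv0, hvk, hv⟩ := hk0 k0 le_rfl
    have hPv : ∀ d ≤ k0, P (v d) := by
      intro d
      induction d with
      | zero => intro _; rw [hv0]; exact hPa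
      | succ d ih => intro hd; exact hPstep _ _ (ih (by omega)) (hv d (by omega))
    have hpq : R (v k0) (g 1) := by
      rw [hvk, ← hg0]; exact hg 0 (by omega)
    have hqr : R (g 1) (g 2) := hg 1 (by omega)
    have hrp : Wlk R (2 * k + 1) (g 2) (g 0) := by
      refine ⟨fun t => g (t + 2), rfl, ?_, fun t ht => ?_⟩
      · simp only
        rw [show 2 * k + 1 + 2 = m by omega, hgm, hg0]
      · simp only
        have := hg (t + 2) (by omega)
        rwa [show t + 2 + 1 = t + 1 + 2 by omega] at this
    have hSsym : ∀ x y, Wlk R (2 * k + 1) x y → Wlk R (2 * k + 1) y x := fun x y h => h.symm hsym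
    obtain ⟨y, hPy, hy⟩ := lolli (S := Wlk R (2 * k + 1)) hn hf hSsym (wlk_compat hR _) a
      (wlk_absorbs hsym hR habs k) k0 v hv0 (fun d hd => wlk_odd hsym (hv d hd) k) (g 1) (g 2)
      (wlk_odd hsym hpq k) (by rw [hvk, ← hg0]; exact hSsym _ _ hrp) (wlk_odd hsym hqr k) P hPf
      hPv (hPstep _ _ (hPv k0 le_rfl) hpq)
      (hPstep _ _ (hPstep _ _ (hPv k0 le_rfl) hpq) hqr)
    exact hmin (2 * k + 1) (by omega) ⟨⟨k, rfl⟩, y, hPy, hy⟩

end Pool.Agent.Results.MP_511665_al.LoopExists
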